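import Pool.Agent.Q68.OV.One

/-!
# BSD for one elliptic curve over a function field and finitely many cubics `T(x, y, z) = 1`

Let `k` be a finite field of characteristic `p`, `X` a curve over `k`, `E` **one** elliptic curve over
`K = k(X)`, and `S` a smooth projective surface over `𝔽_p` with a map to `X` whose generic fibre is `E` (the
elliptic surface, considered as a scheme over `𝔽_p`). Let `ℓ ≠ p` be a prime number. By theorems of Artin,
Tate and Milne the rank of `E(K)` is equal to the order of `L(E/K, T)` at `q^{-1}` if and only if the Galois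
invariant classes in `H^2(S̄, ℚ_ℓ(1))` are `ℚ_ℓ`-linear combinations of the classes of divisors
(`artin_tate`).

For a smooth projective scheme `Y` over `𝔽_p` let `A^m(Y)` be the `ℚ_ℓ`-subspace of
`H^{2m}(Ȳ, ℚ_ℓ(m))` generated by the classes of the cycles of codimension `m` on `Y`, and `B^m(Y)` the sum
of `A^m(Y)` and of the images `c_*(τ)` of the Galois invariant classes `τ` in `H^2(S̄, ℚ_ℓ(1))`, for the
cycles `c` of codimension `m + 1` on `S × Y`, `c_*(τ) = pr_{Y*}(c · pr_S^* τ)`. Both are additive functors
of the Chow motive of `Y`, and `A^m ⊆ B^m ⊆` the Galois invariants; they are equal if and only if the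
classes `c_*(τ)` are algebraic (`Stable`). For a separated scheme `Z` of finite type over `𝔽_p` let `W(Z)`
be its weight complex (Gillet, Soulé, Bondarko; `W(Z) = h(Z)` for smooth projective `Z`), and put
`A^{m,i}(Z) = H^i(A^m(W(Z)))`, `B^{m,i}(Z) = H^i(B^m(W(Z)))`. `At C m Z` says that the maps
`A^{m,i}(Z) → B^{m,i}(Z)` are isomorphisms for this `m` and all `i`, `BijAll C Z` that they are
isomorphisms for all `m` and `i`.

**Theorem.** There are finite lists `L`, `L'` of trilinear forms over `𝔽_p` and a finite list `G` of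
tripartite hypergraphs, which depend only on `S` (not on `ℓ`), with the following properties.

(1) Each form in `L` has at least four variables in each of its three blocks, and exactly **four** in one
of them. The question has a positive answer for `E` (`rk E(K) = ord L(E/K, T)`) if and only if the maps
`A^{m,i}(Z) → B^{m,i}(Z)` are isomorphisms, for all `m` and `i`, for the finitely many smooth affine cubic
hypersurfaces `Z : T(x, y, z) = 1`, `T` in `L`. If it has, they are isomorphisms for all `T`.

(2) It has if and only if, for the finitely many hypersurfaces `T = 1`, `T` in `L'`, and the **one** index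
`m = a`, `a` the number of the variables `x_i`, the maps are isomorphisms for all `i`.

(3) It has if and only if the maps are isomorphisms for the finitely many hypersurfaces
`∑_{(i, j, l) ∈ H} x_i y_j z_l = 1`, `H` in `G`.

(4) The maps are isomorphisms for all forms with a block of at most three variables.

The corresponding statement for all abelian varieties over all function fields of characteristic `p` at
once, with all Galois invariant classes, is a result of helper193 of this team
(`MP_72e2e6_nt.FourVariables`); here there is one curve `E` and finitely many cubics. In (1)-(3) the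
implication from the cubics to `E` uses only the exact sequences, affine bundles and products with `𝔾_m`.
-/

set_option autoImplicit false

open CategoryTheory CategoryTheory.Limits AlgebraicGeometry Pool.Agent.Y116.UV Pool.Agent.Z125.UN
  Pool.Agent.Q193.LT Pool.Agent.Q49.WU Pool.Agent.Q68.OV

universe w u

namespace Pool.Agent.Results.MP_ff7320_nt.FinitelyManyCubics

/-- An elliptic curve `E` over `K = k(X)`, its elliptic surface `S`, and the cohomology of the smooth
projective schemes `Y` over `𝔽_p`. -/
structure SurfaceData (p : ℕ) [Fact p.Prime] (ℓ : ℕ) [Fact ℓ.Prime] (S : Sch (ZMod p)) where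
  /-- `H^{2m}(Ȳ, ℚ_ℓ(m))` -/
  H : ℤ → Sch (ZMod p) → ModuleCat.{w} ℚ_[ℓ]
  /-- the span of the classes of the algebraic cycles of codimension `m` on `Y` -/
  alg : ∀ (m : ℤ) (Y : Sch (ZMod p)), Submodule ℚ_[ℓ] (H m Y)
  /-- the algebraic cycles of codimension `m + 1` on `S × Y` -/
  Cyc : ℤ → Sch (ZMod p) → Type u
  /-- the operation `τ ↦ c_*(τ)` of the cycle `c` -/
  act : ∀ {m : ℤ} {Y : Sch (ZMod p)}, Cyc m Y → H 1 S →ₗ[ℚ_[ℓ]] H m Y
  /-- the diagonal of `S × S` -/
  diag : Cyc 1 S
  /-- the Galois invariant classes in `H^2(S̄, ℚ_ℓ(1))` -/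
  tate : Submodule ℚ_[ℓ] (H 1 S)
  /-- the rank of `E(K)` -/
  rank : ℕ
  /-- the order of `L(E/K, T)` at `T = q^{-1}` -/
  order : ℕ

section

variable {p : ℕ} [Fact p.Prime] {ℓ : ℕ} [Fact ℓ.Prime] {S : Sch (ZMod p)}

/-- Known facts: correspondences preserve algebraic classes, the diagonal operates as the identity, and
the theorem of Artin, Tate and Milne. -/
structure IsSurface (D : SurfaceData.{w, u} p ℓ S) : Prop where
  act_mem : ∀ (m : ℤ) (Y : Sch (ZMod p)), SmoothProj Y → ∀ (c : D.Cyc m Y) (x : D.H 1 S),
    x ∈ D.alg 1 S → D.act c x ∈ D.alg m Y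
  act_diag : ∀ x, D.act D.diag x = x
  artin_tate : D.rank = D.order ↔ D.tate ≤ D.alg 1 S

/-- The statement of Q1 for the curve `E`. -/
def BSD (D : SurfaceData.{w, u} p ℓ S) : Prop := D.rank = D.order

/-- The images in `Y` of the Galois invariant classes of `S` are algebraic. -/
def Stable (D : SurfaceData.{w, u} p ℓ S) (m : ℤ) (Y : Sch (ZMod p)) : Prop :=
  ∀ c : D.Cyc m Y, ∀ x ∈ D.tate, D.act c x ∈ D.alg m Y

/-- The maps are isomorphisms in the codimension `m`. -/
def At (C : PairData.{w} (ZMod p) (ℤ × ℤ) ℚ_[ℓ]) (m : ℤ) (Z : Sch (ZMod p)) : Prop :=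
  BijAt C Prod.fst m Z

end

/-- **BSD for one elliptic curve over a function field and finitely many cubics.** See the explanations
above; `curves` is the case of curves. -/
theorem result {p : ℕ} [Fact p.Prime] {S : Sch (ZMod p)} (hS : SmoothProj S)
    (h2 : topologicalKrullDim S.left ≤ (2 : ℕ)) :
    ∃ (L L' : List (Form (ZMod p))) (G : List Graph), (∀ t ∈ L, t.Block 4 ∧ ¬ t.Block 3) ∧
      ∀ (ℓ : ℕ) [Fact ℓ.Prime] (D : SurfaceData.{w, u} p ℓ S)
        (C : PairData.{w} (ZMod p) (ℤ × ℤ) ℚ_[ℓ]), ℓ ≠ p → IsSurface D → IsWeightPair C →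
        WeightGen C → (∀ Y, SmoothProj Y → ∀ m, (At C m Y ↔ Stable D m Y)) →
        (curves : ∀ Y : Sch (ZMod p), SmoothProj Y → topologicalKrullDim Y.left ≤ (1 : ℕ) →
          BijAll C Y) →
        (BSD D ↔ ∀ t ∈ L, BijAll C t.hyp) ∧
        (BSD D ↔ ∀ t ∈ L', At C t.a t.hyp) ∧
        (BSD D ↔ ∀ g ∈ G, BijAll C (g.hyp (ZMod p))) ∧
        (BSD D → ∀ t : Form (ZMod p), BijAll C t.hyp) ∧
        (∀ t : Form (ZMod p), t.Block 3 → BijAll C t.hyp) := by
  obtain ⟨L, L', G, hL, h⟩ := reach_finite.{w, 0, u} hS h2 1 1
  refine ⟨L, L', G, hL, fun ℓ _ D C _ hD hC hg bij curves => ?_⟩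
  let R : Reach.{w, 0, u} (ZMod p) ℚ_[ℓ] S 1 :=
    { H := D.H, A := D.alg, Corr := D.Cyc, act := D.act, one := D.diag, J := {x | x ∈ D.tate} }
  have hR : IsReach R := ⟨hD.act_mem, hD.act_diag⟩
  have hF : Frac (ZMod p) := frac_of_surj ZMod.intCast_surjective
  have hB : BSD D ↔ Holds R := hD.artin_tate
  obtain ⟨h3, h4, h5, h6, h7⟩ := h ℚ_[ℓ] R C hR hC hg bij curves
  refine ⟨hB.trans h3, hB.trans (h4.trans ?_), hB.trans (h5 hF), fun hb => h6 (hB.mp hb), h7⟩
  have e : ∀ t : Form (ZMod p), (1 : ℤ) - 1 + t.a = t.a := fun t => by ring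
  constructor
  · intro h t ht
    have h1 := h t ht
    rwa [e t] at h1
  · intro h t ht
    rw [e t]
    exact h t ht

end Pool.Agent.Results.MP_ff7320_nt.FinitelyManyCubics
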