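import Pool.Agent.Q126.NV.Prop

set_option autoImplicit false
set_option linter.all false

/-!
# The rank conjecture for a positive proportion of the elliptic curves with a point of order two over
# `F(t)`, over all layers of Kummer towers

Let `k` be a finite field of characteristic at least `5` with `q` elements.

Theorem.

(1) Let `K` be the function field of a curve over `k` with odd class number, `a`, `b` coprime
polynomials over `k` with `b (a ^ 2 - 4 b) ≠ 0`, and `f` in `K` not constant. If the `L`-function of
`E_f : y ^ 2 = x (x ^ 2 + a(f) x + b(f))` over `K` is `(1 - q T) ^ m G(T)` with `G` in `ℤ[T]`, then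

  `m + 4 ≤ Z(b(f)) + Z((a ^ 2 - 4 b)(f)) + 2 Z(1 / f)`,

where `Z(g)` is the sum of the numbers `2 ^ v₂(deg v)` over the zeros `v` of `g`. There is no
condition on the fibres at the poles of `f`.

(2) Let `m` be odd, `2 r < m`, `R` odd, and let `F` be a finite field of characteristic at least `5`
with at least `4 R m + 2` elements which contains the roots of unity of order `R`. For `v` in
`F ^ (m + r + 2)` let `G` be monic of degree `m` with the coefficients `v_0, ..., v_(m - 1)`, `B` of
degree at most `r` with the coefficients `v_m, ..., v_(m + r)`, `c = v_(m + r + 1)`, and let `E_v` be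
the curve

  `y ^ 2 = x (x ^ 2 + c B x - (c ^ 2 / 4) G)`,   with `a ^ 2 - 4 b = c ^ 2 (G + B ^ 2)`.

For at least the proportion `1 / (16 (R m) ^ 2)` of all `v`, the following holds for ALL finite
extensions `F'` of `F` of degree prime to `R m` and ALL divisors `M` of powers of `R`: the pull-back
of `E_v` by `t ↦ t ^ M` over `F'(t)` (that is, `E_v` over the field `F'(t ^ (1 / M))`) has a
nonconstant `j`-invariant, its `L`-function does not vanish at the central point `T = 1 / |F'|`, and
the rank is equal to the order of vanishing, zero, if it is not larger than it (Tate).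

So the rank conjecture holds, with rank zero, for a positive proportion of all elliptic curves of
this form (all the coefficients of `G` and `B` are free), over every large finite field, and at the
same time over all layers of the tower `F'(t ^ (1 / M))`, where the degree of the `L`-function is
unbounded.
-/

namespace Pool.Agent.Results.MP_ff7320_nt.NonvanishingPositiveProportion

open Polynomial Pool.Agent.W343.BSD Pool.Agent.TH180.R4 Pool.Agent.Q126.NV

theorem result :
    (∀ (k K : Type) [Field k] [Finite k] [Field K] [Algebra k K], (6 : k) ≠ 0 →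
      IsCurveField k K → Odd (S.classNumber k K) → ∀ a b : k[X], IsCoprime a b → b ≠ 0 →
        a ^ 2 - 4 * b ≠ 0 → ∀ f : K, Transcendental k f → ∀ m : ℕ,
          S.VanishesTo k (tA 1 (aeval f a) (aeval f b)) (tB 1 (aeval f a) (aeval f b)) m →
            m + 4 ≤ zSum k (aeval f b) + zSum k (aeval f (a ^ 2 - 4 * b)) + 2 * zSum k f⁻¹) ∧
    ∀ m r R : ℕ, Odd m → 2 * r < m → Odd R → ∀ (F : Type) [Field F] [Finite F], (6 : F) ≠ 0 →
      R ∣ Nat.card F - 1 → 4 * (R * m) + 2 ≤ Nat.card F →
        Nat.card F ^ (m + (r + 2)) ≤ 16 * (R * m) ^ 2 *
          {v : Fin (m + (r + 2)) → F | ∀ (F' : Type) [Field F'] [Algebra F F']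
            [FiniteDimensional F F'], (R * m).Coprime (Module.finrank F F') →
              ∀ M e : ℕ, M ∣ R ^ e →
                Central F' ((aPoly m r (fun i => algebraMap F F' (v i))).comp (X ^ M))
                  ((bPoly m r (fun i => algebraMap F F' (v i))).comp (X ^ M))}.ncard := by
  refine ⟨?_, fun m r R hm hr hR F _ _ h6 hRF hn => proportion hm hr hR F h6 hRF hn⟩
  intro k K _ _ _ _ h6 hK hodd a b cop hb hd f hf m hm
  haveI : FF.IsFF k K := ⟨hK.essFiniteType, hK.trdeg_eq_one⟩
  exact bound_cop h6 (Pool.Agent.W313.Gr.constDeg_eq_one hK.algClosed) hodd cop hb hd hf hm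

end Pool.Agent.Results.MP_ff7320_nt.NonvanishingPositiveProportion
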