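import Pool.Agent.Q7.UC.Gal

/-!
# Galois extensions of `ℓ`-power degree and all extensions of the constants of degree prime to `ℓ ^ 2 - 1` at once

Let `K` be the function field of a curve over the field `k` with `q` elements, of characteristic at least `5`,
`E : y ^ 2 = x ^ 3 + a x + b` an elliptic curve over `K`, and `ℓ` a prime different from the characteristic. For a finite
Galois extension `L` of `K` of degree `ℓ ^ n` (with any field of constants) we count the zeros `1 / (q ζ)` of
`L(T, E/L)` (Euler product over `k`), with their multiplicities, where `ζ` is a root of unity of order prime to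
`ℓ ^ 2 - 1` (`admissible`). By the Artin formalism those with `ζ ^ e = 1` are the central zeros of the `L`-function over
`L k_e`, where `k_e` is the extension of degree `e` of `k`; so all the fields `L k_e` with `e` prime to `ℓ ^ 2 - 1` are
considered at once.

**Theorem.** Let `Z ≤ deg L(T, E/K)` be the number of the zeros `z` of `L(T, E/K)` modulo `ℓ` such that `q z` is a root of
unity of order prime to `ℓ ^ 2 - 1`. The number of the admissible zeros of `L(T, E/L)` is at most

`[L : K] Z + ∑_v ([L : K] - [L : K] / e_v) w_v m(deg v)`,

the sum over the ramified places `v` of `K` (of ramification index `e_v`) for which the number of the nonsingular points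
of the reduction of `E` over the residue field is divisible by `ℓ`; here `m(d)` is the greatest divisor of `d` prime to
`ℓ ^ 2 - 1`, and `w_v = 2` for good and `1` for bad reduction.

So the bound does not depend on `e`. If `Z = 0`, for instance if `L(T, E/K) = 1`, and `E` has no point of order `ℓ` over
the residue fields of the ramified places, then by Tate's inequality the rank of `E` over all the fields `L k_e` is
zero, as is the order of the zero, for all `L` and all `e` prime to `ℓ ^ 2 - 1`.

The proof. `L(T, E/L)` modulo `ℓ` is the `[L : K]`-th power of `L(T, E/K)`, up to Euler factors at the ramified places (the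
starting file `W343.BSD`). A zero `z` of the Euler factor at `v` modulo `ℓ` gives the eigenvalue `(q z) ^ (deg v)` of the
Frobenius element on `E[ℓ]`, or on the torus of the reduction, an element of the field with `ℓ ^ 2` elements, whose order
divides `ℓ ^ 2 - 1`; so it is `1` if `q z` is an admissible root of unity.
-/

set_option autoImplicit false
set_option linter.all false
set_option maxHeartbeats 4000000

open Polynomial FF Module Pool.Agent.W343.BSD

namespace Pool.Agent.Results.MP_ff7320_nt.TowersAndConstants

/-- The ring of the algebraic integers. -/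
abbrev AlgInt : Type := integralClosure ℤ ℂ

/-- `ζ` is a root of unity of order prime to `ℓ ^ 2 - 1`. -/
def IsAdmissibleRoot (ℓ : ℕ) {R : Type} [Monoid R] (ζ : R) : Prop :=
  ∃ e : ℕ, 0 < e ∧ e.Coprime (ℓ ^ 2 - 1) ∧ ζ ^ e = 1

/-- `L(T)` is the product of the `1 - q ζ T`, `ζ ∈ s`, and of a polynomial over the ring of algebraic integers: it
has the zeros `1 / (q ζ)`, with their multiplicities. -/
def HasZeros (q : ℕ) (L : PowerSeries ℤ) (s : Multiset AlgInt) : Prop :=
  ∃ G : AlgInt[X], PowerSeries.map (algebraMap ℤ AlgInt) L =
    (((s.map fun ζ => 1 - C ((q : AlgInt) * ζ) * X).prod * G : AlgInt[X]) : PowerSeries AlgInt)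

open Classical in
/-- The number of the zeros `z`, with their multiplicities, of the reduction of `P` modulo `ℓ` such that `q z` is a root
of unity of order prime to `ℓ ^ 2 - 1`. -/
noncomputable def zeroNumber (q ℓ : ℕ) [Fact ℓ.Prime] (P : ℤ[X]) : ℕ :=
  ((P.map (Int.castRingHom (AlgebraicClosure (ZMod ℓ)))).roots.filter
    fun z => IsAdmissibleRoot ℓ ((q : AlgebraicClosure (ZMod ℓ)) * z)).card

/-- The greatest divisor of `d` prime to `ℓ ^ 2 - 1`. -/
def primePart (ℓ d : ℕ) : ℕ := d / Nat.gcd d ((ℓ ^ 2 - 1) ^ d)

section defs

variable {k K : Type} [Field k] [Field K] [Algebra k K]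

/-- The place `w` of `L` lies over the place `v` of `K`, with the ramification index `e`. -/
def LiesOver {L : Type} [Field L] [Algebra k L] [Algebra K L] (w : Place k L) (v : Place k K)
    (e : ℕ) : Prop :=
  0 < e ∧ ∀ f : K, w.ord (algebraMap K L f) = e * v.ord f

open Classical in
/-- The number of the points, without the singular point, of the reduction of `E` at `v` over the residue field:
`q_v + 1 - a_v` for good, `q_v - a_v` for bad reduction, `a_v = 1, -1, 0` for split, nonsplit, additive reduction. -/
noncomputable def points (v : Place k K) (a b : K) : ℤ :=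
  (Nat.card (S.Res v) : ℤ) - S.trace v a b + if v.ord (minDisc v a b) = 0 then 1 else 0

open Classical in
/-- `w_v m(deg v)` if `ℓ` divides the number of the points, and `0` otherwise. -/
noncomputable def weight (ℓ : ℕ) (v : Place k K) (a b : K) : ℕ :=
  if (ℓ : ℤ) ∣ points v a b then
    (if v.ord (minDisc v a b) = 0 then 2 else 1) * primePart ℓ (S.deg v) else 0

end defs

/-- **The bound over the Galois extensions of `ℓ`-power degree and all extensions of the constants of degree prime to
`ℓ ^ 2 - 1`.** -/
theorem result (k K : Type) [Field k] [Finite k] [Field K] [Algebra k K] (h6 : (6 : k) ≠ 0)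
    (hK : IsCurveField k K) (a b : K) (hE : 4 * a ^ 3 + 27 * b ^ 2 ≠ 0) (P : ℤ[X])
    (hP : S.Lfun k a b = (P : PowerSeries ℤ)) (ℓ : ℕ) [Fact ℓ.Prime] (hℓ : (ℓ : k) ≠ 0) :
    zeroNumber (Nat.card k) ℓ P ≤ P.natDegree ∧
    ∀ (L : Type) [Field L] [Algebra k L] [Algebra K L] [IsScalarTower k K L]
      [FiniteDimensional K L] [IsGalois K L] (n : ℕ), finrank K L = ℓ ^ n →
      ∀ e : Place k K → ℕ,
        (∀ (v : Place k K) (w : Place k L) (m : ℕ), LiesOver w v m → m = e v) →
      ∀ B : Finset (Place k K), (∀ v, v ∉ B → e v = 1) →
      ∀ s : Multiset AlgInt, (∀ ζ ∈ s, IsAdmissibleRoot ℓ ζ) →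
        HasZeros (Nat.card k) (S.Lfun k (algebraMap K L a) (algebraMap K L b)) s →
        s.card ≤ finrank K L * zeroNumber (Nat.card k) ℓ P +
          ∑ v ∈ B, (finrank K L - finrank K L / e v) * weight ℓ v a b := by
  classical
  have hFF : FF.IsFF k K := ⟨hK.essFiniteType, hK.trdeg_eq_one⟩
  refine ⟨?_, ?_⟩
  · unfold zeroNumber
    refine (Multiset.card_le_card (Multiset.filter_le _ _)).trans ?_
    exact (card_roots' _).trans (natDegree_map_le)
  · intro L _ _ _ _ _ _ n hn e he B hB s hs hG
    obtain ⟨G, hG⟩ := hG
    have hFL : FF.IsFF k L := isFF_of_finite (K := K)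
    refine (Q7.UC.gal_bound (L := L) h6 hℓ hn hE he B hB hP s hs G hG).trans ?_
    refine Nat.add_le_add le_rfl (Finset.sum_le_sum fun v _ => Nat.mul_le_mul_left _ ?_)
    exact Q7.UC.zq_loc_le hℓ a b v

end Pool.Agent.Results.MP_ff7320_nt.TowersAndConstants
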