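import Pool.Agent.Q126.SB.Tower

/-!
# The Birch-Swinnerton-Dyer conjecture for a positive proportion of the twists of `y² = g(x) + t` over
# every finite field of characteristic `≥ 5`, and for ALL their pull-backs by composites of quadratic
# polynomials

Let `𝔽` be a finite field of characteristic at least 5 with at least 11 elements, let
`g = x³ + b₂ x² + b₁ x + b₀` be ANY cubic polynomial over `𝔽` with `b₂² ≠ 3 b₁`, and `m ≥ 2`.

Theorem. For at least the proportion `1 / (24 m)` of all the polynomials `D` of degree at most `m` over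
`𝔽` the following holds: `D` has degree `m`, and for ALL finite extensions `𝔽'` of `𝔽` of degree prime
to `3 m`, all constants `d ≠ 0` in `𝔽'`, and ALL composites `h` of quadratic polynomials `a t² + c`
over `𝔽'` such that for every critical value `γ` of `h` the cubic polynomial `g + γ` is irreducible
over `𝔽'` (there is no condition for `h = t`), the elliptic curve

`E : d D(h(t)) y² = g(x) + h(t)` over `K = 𝔽'(t)`

satisfies the Selmer group conjecture at 2 (`SelmerAtTwo`): every element of `Sel(E, ℤ₂)` comes, at every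
level `2^n`, from a point of `E(K)`; so `T₂ Ш(E/K) = 0`, that is, the 2-primary part of `Ш(E/K)` is finite
(its Selmer groups are finite).

By the theorem of Artin, Tate and Milne (see the problem file; for the 2-primary part of `Ш`) the rank of
`E(K)` is equal to the order of vanishing of the `L`-function of `E` over `K` at `s = 1`, for all these
curves. The degrees of the conductors are unbounded for each `D` for which there are infinitely many `h`.
If `g` is irreducible over `𝔽`, then `h = t^(2^e)` is allowed for all `e`, so the conjecture holds for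
the twist `E_D` of `y² = g(x) + t` over all the fields `𝔽'(t^(1/2^e))`.

The proof. The `D` are those for which `D(-g(x))`, of degree `3 m`, is irreducible; their number is
computed from the number of irreducible polynomials of the form `P(-g(x))`. If `π` is an irreducible
factor of `D(h(t))` and `τ` a root of `π`, then the degree of `𝔽'(τ)` over `𝔽'(h(τ))` is a power of
two, so `g(x) + h(τ)` has no root in `𝔽'(τ)`, and `D(h(t))` is squarefree. The descent
`Pool.Agent.TH115.TC` over the tower of quadratic coverings shows that the classes in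
`V₂ Sel(E / 𝔽'^s(t))` which are fixed by Frobenius come from `E(K)`, and by restriction of cocycles
(`Pool.Agent.Q126.SB`) the elements of `Sel(E, ℤ₂)` over `K` come from `E(K)`.
-/

set_option autoImplicit false

namespace Pool.Agent.Results.MP_ff7320_nt.TwistsAndAllPullbacks

open Polynomial Module
open Pool.Agent.TH115.GD (cb cb_deg cq crit twC)
open Pool.Agent.Q126.SB (SelmerAtTwo)

/-- The composite `h` of the quadratic polynomials `a t² + c`, `(a, c)` in the list `l`, is allowed for
`g`: all `a ≠ 0`, and for each critical value `γ` of `h` the polynomial `g + γ` is irreducible. -/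
def Admissible {k : Type} [Field k] (g : k[X]) (l : List (k × k)) : Prop :=
  (∀ p ∈ l, p.1 ≠ 0) ∧ ∀ γ ∈ crit l, Irreducible (g + C γ)

/-- The polynomials `D` of degree `m` such that for all finite extensions `𝔽'` of `𝔽` of degree prime
to `3 m`, all `d ≠ 0` in `𝔽'` and all admissible composites `h` over `𝔽'`, the Selmer group conjecture
at 2 holds for the curve `d D(h(t)) y² = g(x) + h(t)` over `𝔽'(t)`. -/
def Good (𝔽 : Type) [Field 𝔽] (b₂ b₁ b₀ : 𝔽) (m : ℕ) : Set 𝔽[X] :=
  {D | D.natDegree = m ∧ ∀ (𝔽' K : Type) [Field 𝔽'] [Algebra 𝔽 𝔽'] [FiniteDimensional 𝔽 𝔽']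
    [Field K] [Algebra 𝔽'[X] K] [IsFractionRing 𝔽'[X] K], (finrank 𝔽 𝔽').Coprime (3 * m) →
      ∀ (φ : 𝔽 →+* 𝔽'), φ = algebraMap 𝔽 𝔽' → ∀ d : 𝔽', d ≠ 0 → ∀ l : List (𝔽' × 𝔽'),
        Admissible (cb (φ b₂) (φ b₁) (φ b₀)) l →
          SelmerAtTwo 𝔽' (twC K (φ b₂) (φ b₁) (φ b₀) (cq l) (C d * (D.map φ).comp (cq l)))}

/-- **The Selmer group conjecture at 2 for a positive proportion of the twists of `y² = g(x) + t` over
every finite field with at least 11 elements and characteristic at least 5, and for all their pull-backs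
by admissible composites of quadratic polynomials.** -/
theorem result (𝔽 : Type) [Field 𝔽] [Finite 𝔽] (h2 : (2 : 𝔽) ≠ 0) (h3 : (3 : 𝔽) ≠ 0)
    (hc : 11 ≤ Nat.card 𝔽) (b₂ b₁ b₀ : 𝔽) (hg : b₂ ^ 2 ≠ 3 * b₁) (m : ℕ) (hm : 2 ≤ m) :
    1 / (24 * m : ℝ) * ({D : 𝔽[X] | D.natDegree ≤ m}.ncard : ℝ) ≤
      ((Good 𝔽 b₂ b₁ b₀ m).ncard : ℝ) := by
  classical
  haveI : Fintype 𝔽 := Fintype.ofFinite 𝔽
  set g : 𝔽[X] := cb b₂ b₁ b₀ with hgdef
  obtain ⟨gd, gm⟩ := cb_deg b₂ b₁ b₀
  have c2 : g.coeff 2 = b₂ := by
    rw [hgdef]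
    unfold cb
    simp only [coeff_add, coeff_C_mul, coeff_X_pow, coeff_X, coeff_C]
    norm_num
  have c1 : g.coeff 1 = b₁ := by
    rw [hgdef]
    unfold cb
    simp only [coeff_add, coeff_C_mul, coeff_X_pow, coeff_X, coeff_C]
    norm_num
  -- the number of all polynomials
  have hall : ({D : 𝔽[X] | D.natDegree ≤ m}.ncard : ℝ) = (Nat.card 𝔽 : ℝ) ^ (m + 1) := by
    have h1 := Pool.Agent.Q126.TD.ncard_pol (R := 𝔽) (n := m) fun _ => True
    have h4 : {f : 𝔽[X] | f.natDegree ≤ m ∧ True} = {D : 𝔽[X] | D.natDegree ≤ m} := by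
      ext f; simp
    rw [h4] at h1
    rw [← h1]
    have h5 : {v : Fin (m + 1) → 𝔽 | True} = Set.univ := by ext v; simp
    rw [h5, Set.ncard_univ, Nat.card_fun, Nat.card_eq_fintype_card (α := Fin (m + 1)),
      Fintype.card_fin]
    push_cast
    rfl
  rw [hall]
  have hcount := Pool.Agent.Q126.FD.count_comp h2 h3 hc (f := g) gm gd
    (by rw [c2, c1]; exact hg) (N := m) (by omega)
  refine hcount.trans ?_
  have hfin : (Good 𝔽 b₂ b₁ b₀ m).Finite :=
    (Pool.Agent.Q126.FD.finite_le m).subset fun f hf => hf.1.le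
  have hle := Set.ncard_le_ncard_of_injOn (s := {f : 𝔽[X] | f.natDegree = m ∧ Irreducible f ∧
    Irreducible (f.comp g)}) (t := Good 𝔽 b₂ b₁ b₀ m) (fun f => f.comp (-X)) ?_ ?_ hfin
  · exact_mod_cast hle
  · rintro f ⟨f1, f2, f3⟩
    have hd : (f.comp (-X)).natDegree = m := by
      rw [natDegree_comp, natDegree_neg, natDegree_X, mul_one, f1]
    have hirr : Irreducible ((f.comp (-X)).comp (-g)) := by
      rw [comp_assoc, neg_comp, X_comp, neg_neg]
      exact f3
    obtain ⟨hD, -⟩ := Pool.Agent.Q126.TD.not_dvd_of_comp (f := f.comp (-X)) (g := -g)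
      (by rw [natDegree_neg, gd]; norm_num) hirr
    have hs : (f.comp (-X)).Separable := PerfectField.separable_of_irreducible hD
    refine ⟨hd, ?_⟩
    intro 𝔽' K _ _ _ _ _ _ hco φ hφ d hd0 l ⟨hl, hcrit⟩
    subst hφ
    haveI : Finite 𝔽' := Module.finite_of_finite 𝔽
    have htop : algebraicClosure 𝔽 𝔽' = ⊤ := by
      rw [eq_top_iff]
      intro x _
      exact mem_algebraicClosure_iff.2 (Algebra.IsAlgebraic.isAlgebraic x)
    have hfr : finrank 𝔽 (algebraicClosure 𝔽 𝔽') = finrank 𝔽 𝔽' := by
      rw [htop]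
      exact IntermediateField.finrank_top'
    exact Pool.Agent.Q126.SB.selmer_ext
      (by have := (_root_.map_ne_zero (algebraMap 𝔽 𝔽')).2 h2; rwa [map_ofNat] at this)
      (by have := (_root_.map_ne_zero (algebraMap 𝔽 𝔽')).2 h3; rwa [map_ofNat] at this)
      hirr hs (by rw [hd]; exact hm) inferInstance (by rw [hfr, hd]; exact hco) hd0 hl
      fun γ hγ => ⟨hcrit γ hγ, PerfectField.separable_of_irreducible (hcrit γ hγ)⟩
  · intro f _ f' _ hff
    have h1 := congrArg (fun p : 𝔽[X] => p.comp (-X)) hff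
    simpa [comp_assoc] using h1

end Pool.Agent.Results.MP_ff7320_nt.TwistsAndAllPullbacks
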